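import Pool.Agent.H.MP_e12dda_al.E

set_option autoImplicit false

namespace Pool.Agent.Results.MP_b84a00_al.No

/-- `x` and `y` have the same characteristic: for every prime `p` and every `k`,
`x` lies in `p^k G` iff `y` does. -/
def SameChar {G : Type} [AddCommGroup G] (x y : G) : Prop :=
  ∀ p : ℕ, p.Prime → ∀ k : ℕ, ((∃ z : G, p ^ k • z = x) ↔ ∃ z : G, p ^ k • z = y)

def KrylovTransitive (G : Type) [AddCommGroup G] : Prop :=
  ∀ x y : G, SameChar x y → ∃ f : G →+ G, f x = y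

def Transitive (G : Type) [AddCommGroup G] : Prop :=
  ∀ x y : G, SameChar x y → ∃ f : G ≃+ G, f x = y

theorem result : ∃ (G : Type) (_ : AddCommGroup G),
    (∀ (n : ℕ) (x : G), n ≠ 0 → n • x = 0 → x = 0) ∧
    KrylovTransitive (G × G) ∧ ¬ Transitive G := by
  obtain ⟨G, inst, tf, od, ht, ft, a0, c0, ha0, hc0, hn⟩ := Pool.Agent.H.MP_e12dda_al.exists_G
  have odp : ∀ p : ℕ, p.Prime → p ≠ 2 → ∀ (k : ℕ) (x : G), ∃ y, p ^ k • y = x := by
    intro p hp h2 k x
    refine od _ (fun h => h2 ?_) x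
    exact ((Nat.prime_dvd_prime_iff_eq Nat.prime_two hp).1 (Nat.prime_two.dvd_of_dvd_pow h)).symm
  have hle : ∀ (k j : ℕ) (a' y : G), (¬ ∃ y : G, 2 • y = a') → 2 ^ j • y = 2 ^ k • a' → j ≤ k := by
    intro k j a' y ha' e
    by_contra hlt
    obtain ⟨i, rfl⟩ : ∃ i, j = k + 1 + i := ⟨j - (k + 1), by omega⟩
    apply ha'
    refine ⟨2 ^ i • y, ?_⟩
    have : 2 ^ k • (2 • 2 ^ i • y - a') = 0 := by
      rw [smul_sub, ← e, smul_smul, smul_smul, sub_eq_zero]
      congr 1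
      ring
    exact sub_eq_zero.1 (tf _ _ (by positivity) this)
  have hz : ∀ a : G, (∀ k : ℕ, ∃ y : G, 2 ^ k • y = a) → a = 0 := by
    intro a h
    by_contra ha
    obtain ⟨k, a', rfl, ha'⟩ := ht a ha
    obtain ⟨y, hy⟩ := h (k + 1)
    have := hle k (k + 1) a' y ha' hy
    omega
  have hz2 : ∀ x : G × G, (∀ k : ℕ, ∃ y : G × G, 2 ^ k • y = x) → x = 0 := by
    intro x h
    refine Prod.ext (hz _ (fun k => ?_)) (hz _ (fun k => ?_))
    · obtain ⟨y, hy⟩ := h k
      exact ⟨y.1, congrArg Prod.fst hy⟩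
    · obtain ⟨y, hy⟩ := h k
      exact ⟨y.2, congrArg Prod.snd hy⟩
  refine ⟨G, inst, tf, ?_, ?_⟩
  · classical
    intro x y h
    by_cases hx : x = 0
    · subst hx
      refine ⟨0, ?_⟩
      rw [hz2 y (fun k => (h 2 Nat.prime_two k).1 ⟨0, by simp⟩)]
      simp
    have h1 : ∃ k : ℕ, ¬ ∃ z : G × G, 2 ^ (k + 1) • z = x := by
      by_contra hcon
      push Not at hcon
      refine hx (hz2 x (fun k => ?_))
      obtain ⟨z, hz⟩ := hcon k
      exact ⟨2 • z, by rw [smul_smul, ← pow_succ, hz]⟩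
    have h2 : ∃ z : G × G, 2 ^ (Nat.find h1) • z = x := by
      rcases hk : Nat.find h1 with _ | k
      · exact ⟨x, by simp⟩
      · have := Nat.find_min h1 (m := k) (by omega)
        simpa using this
    have h3 := Nat.find_spec h1
    generalize Nat.find h1 = k at h2 h3
    obtain ⟨w, rfl⟩ := (h 2 Nat.prime_two k).1 h2
    obtain ⟨z, rfl⟩ := h2
    have h4 : (¬ ∃ u : G, 2 • u = z.1) ∨ ¬ ∃ u : G, 2 • u = z.2 := by
      by_contra hcon
      push Not at hcon
      obtain ⟨⟨u, hu⟩, ⟨v, hv⟩⟩ := hcon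
      refine h3 ⟨(u, v), ?_⟩
      rw [pow_succ, ← smul_smul]
      congr 1
      exact Prod.ext hu hv
    rcases h4 with h4 | h4
    · obtain ⟨f, hf⟩ := ft _ h4 w.1
      obtain ⟨g, hg⟩ := ft _ h4 w.2
      refine ⟨(f.prod g).comp (AddMonoidHom.fst G G), ?_⟩
      rw [map_nsmul]
      congr 1
      exact Prod.ext hf hg
    · obtain ⟨f, hf⟩ := ft _ h4 w.1
      obtain ⟨g, hg⟩ := ft _ h4 w.2
      refine ⟨(f.prod g).comp (AddMonoidHom.snd G G), ?_⟩
      rw [map_nsmul]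
      congr 1
      exact Prod.ext hf hg
  · intro h
    have key : ∀ x : G, (¬ ∃ y : G, 2 • y = x) → ∀ k : ℕ, (∃ y : G, 2 ^ k • y = x) ↔ k = 0 := by
      intro x hx k
      constructor
      · rintro ⟨y, hy⟩
        have := hle 0 k x y hx (by simpa using hy)
        omega
      · rintro rfl
        exact ⟨x, by simp⟩
    obtain ⟨f, hf⟩ := h a0 c0 (by
      intro p hp k
      by_cases h2 : p = 2
      · subst h2
        rw [key a0 ha0, key c0 hc0]
      · exact ⟨fun _ => odp p hp h2 k _, fun _ => odp p hp h2 k _⟩)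
    exact hn f hf

end Pool.Agent.Results.MP_b84a00_al.No
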